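import Pool.Agent.R280.L0

/-!
# `T_{ε,λ}`-continuous sigma-stable maps are `T_c`-continuous (MP_6f9abf_an, Q1: yes)

Let `x₀ ∈ G`, `Q` finite and `ε ∈ L^0_{++}`. For finite `Q'` and real `δ > 0` let `K(Q', δ)` be the set of the
`x ∈ G` with `‖x - x₀‖_{Q'} < δ`. By gluing there is an event `B(Q', δ) = (‖f x - f x₀‖_Q ≥ ε)`, with
`x ∈ K(Q', δ)`, which contains all events of this form up to null sets. By continuity there are
`Q_n`, `δ_n` with `P (B(Q_n, δ_n)) → 0`. Let `E_n` be the set of the `ω` for which `n` is the first index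
with `ω ∉ B(Q_n, δ_n)`. The `T_c`-neighbourhood of `x₀` given by the seminorm
`∑ I_{E_n} ‖·‖_{Q_n}` and by `∑ I_{E_n} δ_n` has the required property.
-/

set_option autoImplicit false
set_option linter.unusedSectionVars false

open Set Topology Filter MeasureTheory Pool.Agent.R280.L0
open scoped ENNReal

universe u v

namespace Pool.Agent.Results.MP_6f9abf_an.StableContinuity

section defs

variable {𝕂 : Type} [RCLike 𝕂]
variable {Ω : Type u} [MeasurableSpace Ω] {P : Measure Ω}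
variable {E : Type v} [AddCommGroup E] [Module (Ω →ₘ[P] 𝕂) E]

/-- `‖x‖_Q`, the supremum of the `N x`, `N ∈ Q` (and of `0`), for a finite set `Q` of
`L^0`-seminorms. -/
noncomputable def normQ (Q : Finset (E → (Ω →ₘ[P] ℝ))) (x : E) : Ω →ₘ[P] ℝ :=
  Q.fold (fun a b => a ⊔ b) 0 fun N => N x

variable (𝕂) in
/-- `(E, Ps)` is a random locally convex module. -/
def IsRLC (Ps : Set (E → (Ω →ₘ[P] ℝ))) : Prop :=
  (∀ N ∈ Ps, IsL0Seminorm 𝕂 N) ∧ ∀ x, (∀ N ∈ Ps, N x = 0) → x = 0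

variable (𝕂 P E) in
/-- `E` is sigma-stable. -/
def IsStableModule : Prop := ∀ (p : MPart Ω) (x : ℕ → E), ∃ y, IsConcat 𝕂 P p x y

/-- The family `Ps` is sigma-stable: `∑_n I_{A_n} ‖·‖_{Q_n} ∈ Ps` for all countable measurable
partitions `(A_n)` and all sequences `(Q_n)` of finite subfamilies. -/
def IsStableFamily (Ps : Set (E → (Ω →ₘ[P] ℝ))) : Prop :=
  ∀ (p : MPart Ω) (Q : ℕ → Finset (E → (Ω →ₘ[P] ℝ))), (∀ n, ↑(Q n) ⊆ Ps) →
    ∃ N ∈ Ps, ∀ (x : E) (n : ℕ),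
      ind ℝ P (p.a n) (p.meas n) * N x = ind ℝ P (p.a n) (p.meas n) * normQ (Q n) x

variable (𝕂 P) in
/-- The set `G` is sigma-stable. -/
def IsStableSet (G : Set E) : Prop :=
  ∀ (p : MPart Ω) (x : ℕ → E) (y : E), (∀ n, x n ∈ G) → IsConcat 𝕂 P p x y → y ∈ G

variable (𝕂 P) in
/-- `f` is a sigma-stable map `G → G`. (Only the values of `f` on `G` matter.) -/
def IsStableMap (G : Set E) (f : E → E) : Prop :=
  (∀ x ∈ G, f x ∈ G) ∧ ∀ (p : MPart Ω) (x : ℕ → E) (y : E), (∀ n, x n ∈ G) →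
    IsConcat 𝕂 P p x y → IsConcat 𝕂 P p (fun n => f (x n)) (f y)

/-- `U` is a neighbourhood of `x` for the topology `T_{ε,λ}`. -/
def IsNbhdEL (Ps : Set (E → (Ω →ₘ[P] ℝ))) (x : E) (U : Set E) : Prop :=
  ∃ (Q : Finset (E → (Ω →ₘ[P] ℝ))) (ε l : ℝ), ↑Q ⊆ Ps ∧ 0 < ε ∧ 0 < l ∧ l < 1 ∧
    ∀ y, ENNReal.ofReal (1 - l) < P {ω | normQ Q (y - x) ω < ε} → y ∈ U

/-- `U` is a neighbourhood of `x` for the topology `T_c`. -/
def IsNbhdC (Ps : Set (E → (Ω →ₘ[P] ℝ))) (x : E) (U : Set E) : Prop :=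
  ∃ (Q : Finset (E → (Ω →ₘ[P] ℝ))) (ε : Ω →ₘ[P] ℝ), ↑Q ⊆ Ps ∧ (∀ᵐ ω ∂P, 0 < ε ω) ∧
    ∀ y, (∀ᵐ ω ∂P, normQ Q (y - x) ω < ε ω) → y ∈ U

/-- The map `f : G → G` is continuous, for the relative topology of the topology on `E` with the
neighbourhoods `nb x U`. -/
def IsContinuousFor (nb : E → Set E → Prop) (G : Set E) (f : E → E) : Prop :=
  ∀ x ∈ G, ∀ U : Set E, nb (f x) U → ∃ V : Set E, nb x V ∧ ∀ y ∈ V ∩ G, f y ∈ U

end defs

section proof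

variable {𝕂 : Type} [RCLike 𝕂]
variable {Ω : Type u} [MeasurableSpace Ω] {P : Measure Ω}
variable {E : Type v} [AddCommGroup E] [Module (Ω →ₘ[P] 𝕂) E]

lemma normQ_ae (Q : Finset (E → (Ω →ₘ[P] ℝ))) (x : E) :
    ∀ᵐ ω ∂P, ∀ t : ℝ, 0 < t → (normQ Q x ω < t ↔ ∀ N ∈ Q, N x ω < t) := by
  classical
  unfold normQ
  induction Q using Finset.induction_on with
  | empty =>
    filter_upwards [AEEqFun.coeFn_zero (α := Ω) (β := ℝ) (μ := P)] with ω h t ht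
    simp only [Finset.fold_empty, Finset.notMem_empty, false_imp_iff, implies_true, iff_true]
    rw [h]
    exact ht
  | insert N Q hN ih =>
    rw [Finset.fold_insert hN]
    filter_upwards [ih, AEEqFun.coeFn_sup (N x) (Q.fold (fun a b => a ⊔ b) 0 fun N => N x)]
      with ω h1 h2 t ht
    rw [h2, sup_lt_iff, h1 t ht, Finset.forall_mem_insert]

/-- zero seminorm value -/
lemma N_zero_ae {N : E → (Ω →ₘ[P] ℝ)} (hN : IsL0Seminorm 𝕂 N) (x : E) :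
    ∀ᵐ ω ∂P, N (x - x) ω = 0 := by
  rw [sub_self, seminorm_zero hN]
  filter_upwards [AEEqFun.coeFn_zero (α := Ω) (β := ℝ) (μ := P)] with ω h
  rw [h]
  rfl

/-- The set `K(Q', δ)`. -/
def K (G : Set E) (x₀ : E) (Q : Finset (E → (Ω →ₘ[P] ℝ))) (δ : ℝ) : Set E :=
  {x ∈ G | ∀ N ∈ Q, ∀ᵐ ω ∂P, N (x - x₀) ω < δ}

/-- the bad event -/
def bad (f : E → E) (x₀ : E) (Q : Finset (E → (Ω →ₘ[P] ℝ))) (ε : Ω →ₘ[P] ℝ) (x : E) : Set Ω :=
  {ω | ∃ N ∈ Q, ε ω ≤ N (f x - f x₀) ω}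

lemma measurableSet_bad (f : E → E) (x₀ : E) (Q : Finset (E → (Ω →ₘ[P] ℝ))) (ε : Ω →ₘ[P] ℝ)
    (x : E) : MeasurableSet (bad f x₀ Q ε x) := by
  have h1 : bad f x₀ Q ε x = ⋃ N ∈ Q, {ω | ε ω ≤ N (f x - f x₀) ω} := by
    ext ω
    simp [bad]
  rw [h1]
  exact Finset.measurableSet_biUnion _ fun N _ =>
    measurableSet_le (AEEqFun.measurable _) (AEEqFun.measurable _)

variable {Ps : Set (E → (Ω →ₘ[P] ℝ))}

/-- the bad events are local -/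
lemma bad_loc (hP : ∀ N ∈ Ps, IsL0Seminorm 𝕂 N) {G : Set E} {f : E → E} (hf : IsStableMap 𝕂 P G f)
    (x₀ : E) {Q : Finset (E → (Ω →ₘ[P] ℝ))} (hQ : ↑Q ⊆ Ps) (ε : Ω →ₘ[P] ℝ) {p : MPart Ω}
    {x : ℕ → E} {y : E} (hx : ∀ n, x n ∈ G) (h : IsConcat 𝕂 P p x y) (k : ℕ) :
    ∀ᵐ ω ∂P, ω ∈ p.a k → (ω ∈ bad f x₀ Q ε y ↔ ω ∈ bad f x₀ Q ε (x k)) := by
  have h1 : ∀ᵐ ω ∂P, ∀ N ∈ Q, ω ∈ p.a k → N (f y - f x₀) ω = N (f (x k) - f x₀) ω := by
    rw [Finset.eventually_all]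
    intro N hN
    exact seminorm_concat (hP N (hQ hN)) (hf.2 p x y hx h) (f x₀) k
  filter_upwards [h1] with ω h1 hω
  constructor
  · rintro ⟨N, hN, h2⟩
    exact ⟨N, hN, by rwa [← h1 N hN hω]⟩
  · rintro ⟨N, hN, h2⟩
    exact ⟨N, hN, by rwa [h1 N hN hω]⟩

/-- `K(Q', δ)` is sigma-stable -/
lemma K_concat (hP : ∀ N ∈ Ps, IsL0Seminorm 𝕂 N) {G : Set E} (hG : IsStableSet 𝕂 P G)
    {x₀ : E} {Q : Finset (E → (Ω →ₘ[P] ℝ))} (hQ : ↑Q ⊆ Ps) {δ : ℝ} {p : MPart Ω}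
    {x : ℕ → E} {y : E} (hx : ∀ n, x n ∈ K G x₀ Q δ) (h : IsConcat 𝕂 P p x y) :
    y ∈ K G x₀ Q δ := by
  refine ⟨hG p x y (fun n => (hx n).1) h, fun N hN => ?_⟩
  have h1 : ∀ᵐ ω ∂P, ∀ k, ω ∈ p.a k → N (y - x₀) ω = N (x k - x₀) ω :=
    ae_all_iff.2 fun k => seminorm_concat (hP N (hQ hN)) h x₀ k
  have h2 : ∀ᵐ ω ∂P, ∀ k, N (x k - x₀) ω < δ := ae_all_iff.2 fun k => (hx k).2 N hN
  filter_upwards [h1, h2] with ω h1 h2
  obtain ⟨k, hk⟩ := p.cover ω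
  rw [h1 k hk]
  exact h2 k

/-- there is a largest bad event -/
lemma exists_max_bad [IsProbabilityMeasure P] (hP : ∀ N ∈ Ps, IsL0Seminorm 𝕂 N)
    (hE : IsStableModule 𝕂 P E) {G : Set E} (hG : IsStableSet 𝕂 P G) {f : E → E}
    (hf : IsStableMap 𝕂 P G f) {x₀ : E} (hx₀ : x₀ ∈ G) {Q Q' : Finset (E → (Ω →ₘ[P] ℝ))}
    (hQ : ↑Q ⊆ Ps) (hQ' : ↑Q' ⊆ Ps) (ε : Ω →ₘ[P] ℝ) {δ : ℝ} (hδ : 0 < δ) :
    ∃ x ∈ K G x₀ Q' δ, ∀ y ∈ K G x₀ Q' δ,
      ∀ᵐ ω ∂P, ω ∈ bad f x₀ Q ε y → ω ∈ bad f x₀ Q ε x := by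
  classical
  have hx₀K : x₀ ∈ K G x₀ Q' δ := by
    refine ⟨hx₀, fun N hN => ?_⟩
    filter_upwards [N_zero_ae (hP N (hQ' hN)) x₀] with ω h
    rw [h]
    exact hδ
  set S : Set ℝ≥0∞ := {r | ∃ x ∈ K G x₀ Q' δ, r = P (bad f x₀ Q ε x)} with hS
  obtain ⟨u, -, hu, huS⟩ := exists_seq_tendsto_sSup (S := S) ⟨_, x₀, hx₀K, rfl⟩
    (OrderTop.bddAbove _)
  choose x hxK hxu using huS
  -- glue
  set p : Ω → ℕ → Prop := fun ω n => ω ∈ bad f x₀ Q ε (x n) ∨ ω ∉ ⋃ m, bad f x₀ Q ε (x m) with hp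
  have hpex : ∀ ω, ∃ n, p ω n := by
    intro ω
    by_cases h : ω ∈ ⋃ m, bad f x₀ Q ε (x m)
    · obtain ⟨m, hm⟩ := mem_iUnion.1 h
      exact ⟨m, Or.inl hm⟩
    · exact ⟨0, Or.inr h⟩
  have hmeasU : MeasurableSet (⋃ m, bad f x₀ Q ε (x m)) :=
    MeasurableSet.iUnion fun m => measurableSet_bad f x₀ Q ε (x m)
  have hκ : Measurable fun ω => Nat.find (hpex ω) :=
    measurable_find hpex fun k => (measurableSet_bad f x₀ Q ε (x k)).union hmeasU.compl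
  obtain ⟨y, hy⟩ := hE (partOf _ hκ) x
  have hyK : y ∈ K G x₀ Q' δ := K_concat hP hG hQ' hxK hy
  have hbad : ∀ᵐ ω ∂P, ω ∈ (⋃ m, bad f x₀ Q ε (x m)) → ω ∈ bad f x₀ Q ε y := by
    have h1 : ∀ᵐ ω ∂P, ∀ k, ω ∈ (partOf _ hκ).a k →
        (ω ∈ bad f x₀ Q ε y ↔ ω ∈ bad f x₀ Q ε (x k)) :=
      ae_all_iff.2 fun k => bad_loc hP hf x₀ hQ ε (fun n => (hxK n).1) hy k
    filter_upwards [h1] with ω h1 hω
    rw [h1 (Nat.find (hpex ω)) rfl]
    rcases Nat.find_spec (hpex ω) with h2 | h2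
    · exact h2
    · exact absurd hω h2
  have hsup : sSup S ≤ P (bad f x₀ Q ε y) := by
    refine le_of_tendsto' hu fun n => ?_
    rw [hxu n]
    refine measure_mono_ae ?_
    filter_upwards [hbad] with ω h1 h2
    exact h1 (mem_iUnion.2 ⟨n, h2⟩)
  refine ⟨y, hyK, fun z hz => ?_⟩
  have hmy := measurableSet_bad f x₀ Q ε y
  obtain ⟨w, hw⟩ := hE (part2 (bad f x₀ Q ε y) hmy) (fun n => if n = 0 then y else z)
  have hseq : ∀ n, (fun n => if n = 0 then y else z) n ∈ K G x₀ Q' δ := by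
    intro n
    by_cases h : n = 0
    · simp only [h, if_true]; exact hyK
    · simp only [h, if_false]; exact hz
  have hwK : w ∈ K G x₀ Q' δ := K_concat hP hG hQ' hseq hw
  have hw0 := bad_loc hP hf x₀ hQ ε (fun n => (hseq n).1) hw 0
  have hw1 := bad_loc hP hf x₀ hQ ε (fun n => (hseq n).1) hw 1
  have h2 : P (bad f x₀ Q ε y ∪ (bad f x₀ Q ε z \ bad f x₀ Q ε y)) ≤ P (bad f x₀ Q ε w) := by
    refine measure_mono_ae ?_
    filter_upwards [hw0, hw1] with ω h0 h1 h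
    rcases h with h | h
    · exact (h0 h).2 (by simpa using h)
    · exact (h1 h.2).2 (by simpa using h.1)
  have h3 : P (bad f x₀ Q ε w) ≤ P (bad f x₀ Q ε y) :=
    (le_sSup (show _ ∈ S from ⟨w, hwK, rfl⟩)).trans hsup
  rw [measure_union disjoint_sdiff_right ((measurableSet_bad f x₀ Q ε z).diff hmy)] at h2
  have h4 : P (bad f x₀ Q ε z \ bad f x₀ Q ε y) = 0 := by
    have h5 : P (bad f x₀ Q ε y) + P (bad f x₀ Q ε z \ bad f x₀ Q ε y) ≤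
        P (bad f x₀ Q ε y) + 0 := by
      rw [add_zero]
      exact h2.trans h3
    exact le_antisymm ((ENNReal.add_le_add_iff_left (measure_ne_top _ _)).1 h5) bot_le
  have h5 : ∀ᵐ ω ∂P, ω ∉ bad f x₀ Q ε z \ bad f x₀ Q ε y := measure_eq_zero_iff_ae_notMem.1 h4
  filter_upwards [h5] with ω h5 hω
  by_contra hcon
  exact h5 ⟨hω, hcon⟩

/-- For `T_{ε,λ}`-continuous maps the bad events have small probability. -/
lemma exists_small [IsProbabilityMeasure P] {G : Set E} {f : E → E}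
    (hc : IsContinuousFor (IsNbhdEL Ps) G f) {x₀ : E} (hx₀ : x₀ ∈ G)
    {Q : Finset (E → (Ω →ₘ[P] ℝ))} (hQ : ↑Q ⊆ Ps) {ε : Ω →ₘ[P] ℝ} (hε : ∀ᵐ ω ∂P, 0 < ε ω) (n : ℕ) :
    ∃ (Q' : Finset (E → (Ω →ₘ[P] ℝ))) (δ : ℝ), ↑Q' ⊆ Ps ∧ 0 < δ ∧ ∀ y ∈ K G x₀ Q' δ,
      P (bad f x₀ Q ε y) ≤ ENNReal.ofReal ((1 / 2) ^ n) := by
  set l : ℝ := (1 / 2) ^ n / 2 with hl
  have hl0 : 0 < l := by positivity
  have hl1 : l < 1 := by
    have : (1 / 2 : ℝ) ^ n ≤ 1 := pow_le_one₀ (by norm_num) (by norm_num)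
    rw [hl]; linarith
  -- a lower bound for `ε`
  obtain ⟨η, hη, hη2⟩ : ∃ η : ℝ, 0 < η ∧ P {ω | ε ω ≤ η} < ENNReal.ofReal l := by
    have h1 : Tendsto (fun m : ℕ => P {ω | ε ω ≤ 1 / ((m : ℝ) + 1)}) atTop
        (𝓝 (P (⋂ m : ℕ, {ω | ε ω ≤ 1 / ((m : ℝ) + 1)}))) := by
      refine tendsto_measure_iInter_atTop (fun m => ?_) (fun a b hab ω hω => ?_)
        ⟨0, measure_ne_top _ _⟩
      · exact (measurableSet_le (AEEqFun.measurable _) measurable_const).nullMeasurableSet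
      · have h2 : ε ω ≤ 1 / ((b : ℝ) + 1) := hω
        refine h2.trans (one_div_le_one_div_of_le (by positivity) ?_)
        have : (a : ℝ) ≤ b := by exact_mod_cast hab
        linarith
    have h2 : P (⋂ m : ℕ, {ω | ε ω ≤ 1 / ((m : ℝ) + 1)}) = 0 := by
      rw [measure_eq_zero_iff_ae_notMem]
      filter_upwards [hε] with ω hω hmem
      obtain ⟨m, hm⟩ := exists_nat_one_div_lt hω
      exact absurd (mem_iInter.1 hmem m) (not_le.2 hm)
    rw [h2] at h1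
    obtain ⟨m, hm⟩ := (h1.eventually_lt_const (ENNReal.ofReal_pos.2 hl0)).exists
    exact ⟨1 / ((m : ℝ) + 1), by positivity, hm⟩
  obtain ⟨V, ⟨Q', δ, l', hQ', hδ, hl'0, hl'1, hV⟩, hVf⟩ := hc x₀ hx₀
    {y | ENNReal.ofReal (1 - l) < P {ω | normQ Q (y - f x₀) ω < η}}
    ⟨Q, η, l, hQ, hη, hl0, hl1, fun y hy => hy⟩
  refine ⟨Q', δ, hQ', hδ, fun y hy => ?_⟩
  have hyV : y ∈ V := by
    apply hV
    have h1 : P {ω | normQ Q' (y - x₀) ω < δ} = 1 := by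
      rw [← measure_univ (μ := P)]
      refine measure_congr (eventuallyEq_univ.2 ?_)
      have h2 : ∀ᵐ ω ∂P, ∀ N ∈ Q', N (y - x₀) ω < δ := by
        rw [Finset.eventually_all]
        exact hy.2
      filter_upwards [h2, normQ_ae Q' (y - x₀)] with ω h2 h3
      exact (h3 δ hδ).2 h2
    rw [h1, ENNReal.ofReal_lt_one]
    linarith
  have h1 : ENNReal.ofReal (1 - l) < P {ω | normQ Q (f y - f x₀) ω < η} := hVf y ⟨hyV, hy.1⟩
  have h2 : P {ω | normQ Q (f y - f x₀) ω < η}ᶜ ≤ ENNReal.ofReal l := by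
    have hm : MeasurableSet {ω | normQ Q (f y - f x₀) ω < η} :=
      measurableSet_lt (AEEqFun.measurable _) measurable_const
    rw [prob_compl_eq_one_sub hm]
    rw [tsub_le_iff_right]
    calc (1 : ℝ≥0∞) = ENNReal.ofReal l + ENNReal.ofReal (1 - l) := by
          rw [← ENNReal.ofReal_add hl0.le (by linarith), add_sub_cancel, ENNReal.ofReal_one]
      _ ≤ _ := add_le_add le_rfl h1.le
  have h3 : P (bad f x₀ Q ε y) ≤
      P ({ω | normQ Q (f y - f x₀) ω < η}ᶜ ∪ {ω | ε ω ≤ η}) := by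
    refine measure_mono_ae ?_
    filter_upwards [normQ_ae Q (f y - f x₀)] with ω h3 hω
    obtain ⟨N, hN, h4⟩ := hω
    by_contra hcon
    have h5 : ω ∉ {ω | normQ Q (f y - f x₀) ω < η}ᶜ := fun h => hcon (Or.inl h)
    have h6 : ¬ ε ω ≤ η := fun h => hcon (Or.inr h)
    have h7 : normQ Q (f y - f x₀) ω < η := by
      by_contra h; exact h5 h
    have h8 := (h3 η hη).1 h7 N hN
    linarith
  refine h3.trans ((measure_union_le _ _).trans ?_)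
  calc P {ω | normQ Q (f y - f x₀) ω < η}ᶜ + P {ω | ε ω ≤ η}
      ≤ ENNReal.ofReal l + ENNReal.ofReal l := add_le_add h2 hη2.le
    _ = ENNReal.ofReal ((1 / 2) ^ n) := by
        rw [← ENNReal.ofReal_add hl0.le hl0.le, hl, add_halves]

end proof

/-- Let `(E, Ps)` be a random locally convex module with `E` and `Ps` sigma-stable, let `G` be a
sigma-stable subset of `E` and `f : G → G` a sigma-stable map which is continuous for `T_{ε,λ}`. Then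
`f` is continuous for `T_c`. -/
theorem result (𝕂 : Type) [RCLike 𝕂] (Ω : Type u) [MeasurableSpace Ω] (P : Measure Ω)
    [IsProbabilityMeasure P] (E : Type v) [AddCommGroup E] [Module (Ω →ₘ[P] 𝕂) E]
    (Ps : Set (E → (Ω →ₘ[P] ℝ))) (hRLC : IsRLC 𝕂 Ps) (hE : IsStableModule 𝕂 P E)
    (hPs : IsStableFamily Ps) (G : Set E) (hG : IsStableSet 𝕂 P G) (f : E → E)
    (hf : IsStableMap 𝕂 P G f) (hc : IsContinuousFor (IsNbhdEL Ps) G f) :
    IsContinuousFor (IsNbhdC Ps) G f := by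
  classical
  have hP := hRLC.1
  intro x₀ hx₀ U hU
  obtain ⟨Q, ε, hQ, hε, hU⟩ := hU
  choose Q' δ hQ' hδ hsmall using exists_small hc hx₀ hQ hε
  choose x hxK hxmax using fun n => exists_max_bad hP hE hG hf hx₀ hQ (hQ' n) ε (hδ n)
  set B : ℕ → Set Ω := fun n => bad f x₀ Q ε (x n) with hB
  have hBm : ∀ n, MeasurableSet (B n) := fun n => measurableSet_bad f x₀ Q ε (x n)
  have hBnull : P (⋂ n, B n) = 0 := by
    have h1 : Tendsto (fun n : ℕ => ENNReal.ofReal ((1 / 2) ^ n)) atTop (𝓝 (ENNReal.ofReal 0)) :=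
      (ENNReal.continuous_ofReal.tendsto 0).comp
        (tendsto_pow_atTop_nhds_zero_of_lt_one (by norm_num) (by norm_num))
    rw [ENNReal.ofReal_zero] at h1
    refine le_antisymm (ge_of_tendsto' h1 fun n => ?_) bot_le
    exact (measure_mono (iInter_subset _ n)).trans (hsmall n _ (hxK n))
  -- the partition
  set p : Ω → ℕ → Prop := fun ω n => ω ∉ B n ∨ ω ∈ ⋂ m, B m with hp
  have hpex : ∀ ω, ∃ n, p ω n := by
    intro ω
    by_cases h : ω ∈ ⋂ m, B m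
    · exact ⟨0, Or.inr h⟩
    · rw [mem_iInter] at h
      push Not at h
      obtain ⟨n, hn⟩ := h
      exact ⟨n, Or.inl hn⟩
  have hκ : Measurable fun ω => Nat.find (hpex ω) :=
    measurable_find hpex fun k => (hBm k).compl.union (MeasurableSet.iInter hBm)
  set κ : Ω → ℕ := fun ω => Nat.find (hpex ω) with hκdef
  obtain ⟨N₀, hN₀, hN₀eq⟩ := hPs (partOf κ hκ) Q' hQ'
  have hδm : Measurable fun ω => δ (κ ω) := (measurable_from_nat (f := δ)).comp hκ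
  set d : Ω →ₘ[P] ℝ := AEEqFun.mk (fun ω => δ (κ ω)) hδm.aestronglyMeasurable with hd
  have hdae : ∀ᵐ ω ∂P, d ω = δ (κ ω) := AEEqFun.coeFn_mk _ _
  refine ⟨{y | ∀ᵐ ω ∂P, normQ {N₀} (y - x₀) ω < d ω}, ⟨{N₀}, d, by simpa using hN₀, ?_,
    fun y hy => hy⟩, ?_⟩
  · filter_upwards [hdae] with ω h
    rw [h]
    exact hδ _
  rintro y ⟨hyV, hyG⟩
  apply hU
  -- the bound for `y - x₀` on the parts
  have hNy : ∀ᵐ ω ∂P, N₀ (y - x₀) ω < δ (κ ω) := by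
    filter_upwards [hyV, hdae, normQ_ae {N₀} (y - x₀)] with ω h1 h2 h3
    rw [h2] at h1
    exact (h3 _ (hδ _)).1 h1 N₀ (Finset.mem_singleton_self _)
  have hNn : ∀ n, ∀ᵐ ω ∂P, κ ω = n → ∀ N ∈ Q' n, N (y - x₀) ω < δ n := by
    intro n
    have h1 : ∀ᵐ ω ∂P, (ind ℝ P ((partOf κ hκ).a n) ((partOf κ hκ).meas n) * N₀ (y - x₀)) ω =
        (ind ℝ P ((partOf κ hκ).a n) ((partOf κ hκ).meas n) * normQ (Q' n) (y - x₀)) ω := by
      rw [hN₀eq (y - x₀) n]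
      exact Eventually.of_forall fun _ => rfl
    filter_upwards [h1, AEEqFun.coeFn_mul (ind ℝ P ((partOf κ hκ).a n) ((partOf κ hκ).meas n))
      (N₀ (y - x₀)), AEEqFun.coeFn_mul (ind ℝ P ((partOf κ hκ).a n) ((partOf κ hκ).meas n))
      (normQ (Q' n) (y - x₀)), ind_ae (𝕂 := ℝ) (P := P) ((partOf κ hκ).a n)
      ((partOf κ hκ).meas n), hNy, normQ_ae (Q' n) (y - x₀)] with ω h1 h2 h3 h4 h5 h6 hω
    rw [h2, h3, Pi.mul_apply, Pi.mul_apply, h4, Set.indicator_of_mem (show ω ∈ (partOf κ hκ).a n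
      from hω), one_mul, one_mul] at h1
    rw [h1, hω] at h5
    exact (h6 _ (hδ n)).1 h5
  -- glue with `x₀`
  have hglue : ∀ n, ∃ w : E, IsConcat 𝕂 P (part2 ((partOf κ hκ).a n) ((partOf κ hκ).meas n))
      (fun m => if m = 0 then y else x₀) w := fun n => hE _ _
  choose w hw using hglue
  have hseqG : ∀ m, (fun m => if m = 0 then y else x₀) m ∈ G := by
    intro m
    by_cases h : m = 0
    · simp only [h, if_true]; exact hyG
    · simp only [h, if_false]; exact hx₀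
  have hwK : ∀ n, w n ∈ K G x₀ (Q' n) (δ n) := by
    intro n
    refine ⟨hG _ _ _ hseqG (hw n), fun N hN => ?_⟩
    have hN1 := hP N (hQ' n hN)
    have h0 := seminorm_concat hN1 (hw n) x₀ 0
    have h1 := seminorm_concat hN1 (hw n) x₀ 1
    filter_upwards [h0, h1, hNn n, N_zero_ae hN1 x₀] with ω h0 h1 h2 h3
    by_cases hω : κ ω = n
    · rw [h0 hω]
      simpa using h2 hω N hN
    · rw [h1 hω]
      simp only [one_ne_zero, if_false]
      rw [h3]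
      exact hδ n
  have hkey : ∀ᵐ ω ∂P, ω ∉ bad f x₀ Q ε y := by
    have h1 : ∀ᵐ ω ∂P, ∀ n, ω ∈ (part2 ((partOf κ hκ).a n) ((partOf κ hκ).meas n)).a 0 →
        (ω ∈ bad f x₀ Q ε (w n) ↔ ω ∈ bad f x₀ Q ε y) :=
      ae_all_iff.2 fun n => by
        have := bad_loc hP hf x₀ hQ ε hseqG (hw n) 0
        simpa using this
    have h2 : ∀ᵐ ω ∂P, ∀ n, ω ∈ bad f x₀ Q ε (w n) → ω ∈ B n :=
      ae_all_iff.2 fun n => hxmax n (w n) (hwK n)
    have h3 : ∀ᵐ ω ∂P, ω ∉ ⋂ n, B n := measure_eq_zero_iff_ae_notMem.1 hBnull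
    filter_upwards [h1, h2, h3] with ω h1 h2 h3 hω
    have h4 : ω ∈ B (κ ω) := h2 _ ((h1 (κ ω) rfl).2 hω)
    rcases Nat.find_spec (hpex ω) with h5 | h5
    · exact h5 h4
    · exact h3 h5
  filter_upwards [hkey, hε, normQ_ae Q (f y - f x₀)] with ω h1 h2 h3
  rw [h3 _ h2]
  intro N hN
  by_contra hcon
  exact h1 ⟨N, hN, not_lt.1 hcon⟩

end Pool.Agent.Results.MP_6f9abf_an.StableContinuity
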